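import Pool.Agent.W5h93.FMP.Grp
import Pool.Agent.TH831.OE.Dat
import Pool.Agent.W924.UF.FrobZeta

/-! Decomposition groups above `p`: the cyclotomic field, and one tame prime. -/

set_option autoImplicit false
set_option linter.all false

namespace Pool.Agent.W5h93.FMP

open NumberField Pool.Agent.W569.FM Pool.Agent.W134.FM Pool.Agent.TH831.OT

/-- the decomposition group as a subgroup -/
def Dc (P : Ideal (OO ℚ)) : Subgroup (GF ℚ) where
  carrier := {g | ∀ x : OO ℚ, g • x ∈ P ↔ x ∈ P}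
  mul_mem' := by
    intro a b ha hb x
    rw [mul_smul, ha, hb]
  one_mem' := by
    intro x
    rw [one_smul]
  inv_mem' := by
    intro a ha x
    rw [← ha (a⁻¹ • x), smul_inv_smul]

theorem mem_Dc {P : Ideal (OO ℚ)} {g : GF ℚ} : g ∈ Dc P ↔ ∀ x : OO ℚ, g • x ∈ P ↔ x ∈ P := Iff.rfl

theorem inertia_mem {P : Ideal (OO ℚ)} {τ : GF ℚ} (h : InInertia P τ) : τ ∈ Dc P := by
  intro x
  have h1 := h x
  constructor
  · intro h2
    have := P.sub_mem h2 h1
    rwa [sub_sub_cancel] at this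
  · intro h2
    have := P.add_mem h1 h2
    rwa [sub_add_cancel] at this

theorem frob_mem {P : Ideal (OO ℚ)} (hP : P.IsPrime) {l : ℕ} (hl : 0 < l) {σ : GF ℚ}
    (h : FrobAt l P σ) : σ ∈ Dc P := by
  intro x
  have h1 := h x
  constructor
  · intro h2
    have h3 := P.sub_mem h2 h1
    rw [sub_sub_cancel] at h3
    exact hP.mem_of_pow_mem l h3
  · intro h2
    have h3 := P.add_mem h1 (P.pow_mem_of_mem h2 l hl)
    rwa [sub_add_cancel] at h3

theorem inertia_conj {P : Ideal (OO ℚ)} {τ δ : GF ℚ} (h : InInertia P τ) (hδ : δ ∈ Dc P) :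
    InInertia P (δ * τ * δ⁻¹) := by
  intro x
  have h1 := (hδ _).2 (h (δ⁻¹ • x))
  rw [smul_sub, smul_inv_smul] at h1
  rw [mul_smul, mul_smul]
  exact h1

section gen

variable {F : Type} [Field F]

/-- the absolute Galois group of `K` as a subgroup of the absolute Galois group of `F` -/
noncomputable def fx (K : IntermediateField F (AlgebraicClosure F)) : Subgroup (GF F) := K.fixingSubgroup

theorem mem_fx {K : IntermediateField F (AlgebraicClosure F)} {σ : GF F} :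
    σ ∈ fx K ↔ ∀ x ∈ K, σ x = x := IntermediateField.mem_fixingSubgroup_iff K σ

/-- the field generated by the `p`-th roots of unity -/
noncomputable def cyc (F : Type) [Field F] (p : ℕ) : IntermediateField F (AlgebraicClosure F) :=
  IntermediateField.adjoin F {x | x ^ p = 1}

theorem mem_cyc {p : ℕ} {σ : GF F} :
    σ ∈ fx (cyc F p) ↔ ∀ z : AlgebraicClosure F, z ^ p = 1 → σ z = z := by
  rw [mem_fx]
  constructor
  · intro h z hz
    exact h z (IntermediateField.subset_adjoin F _ hz)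
  · intro h x hx
    refine IntermediateField.adjoin_induction (F := F) (s := {x | x ^ p = 1})
      (p := fun x _ => σ x = x) ?_ ?_ ?_ ?_ ?_ hx
    · intro x hx; exact h x hx
    · intro x; exact σ.commutes x
    · intro x y _ _ h1 h2; rw [map_add, h1, h2]
    · intro x _ h1; rw [map_inv₀, h1]
    · intro x y _ _ h1 h2; rw [map_mul, h1, h2]

end gen

/-- every cyclic extension of degree `p` of the field of the `p`-th roots of unity is ramified -/
def Regular (p : ℕ) : Prop :=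
  ∀ h : fx (cyc ℚ p) →* Multiplicative (ZMod p), IsOpen (h.ker : Set (fx (cyc ℚ p))) →
    (∀ P : Ideal (OO ℚ), P.IsMaximal → ∀ τ : fx (cyc ℚ p), InInertia P (τ : GF ℚ) → h τ = 1) →
    ∀ σ, h σ = 1

section

variable {p : ℕ} [hp : Fact p.Prime]

/-- inertia elements at the primes not above `p` fix the `p`-th roots of unity -/
theorem inertia_fix {P : Ideal (OO ℚ)} (hP : P.IsMaximal) (hpP : (p : OO ℚ) ∉ P) {τ : GF ℚ}
    (hτ : InInertia P τ) : τ ∈ fx (cyc ℚ p) := by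
  rw [mem_cyc]
  intro z hz
  have hzi : IsIntegral ℤ z := IsIntegral.of_pow hp.out.pos (by rw [hz]; exact isIntegral_one)
  let w : OO ℚ := ⟨z, hzi⟩
  have hwp : w ^ p = 1 := by
    apply RingOfIntegers.ext
    exact ((map_pow (algebraMap (OO ℚ) (AlgebraicClosure ℚ)) w _).trans hz).trans
      (map_one (algebraMap (OO ℚ) (AlgebraicClosure ℚ))).symm
  have h1 : τ • w = w := by
    refine root_eq hP.ne_top hpP ?_ hwp (hτ w) hp.out.ne_zero
    rw [← smul_pow', hwp, smul_one]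
  exact congrArg (fun y : OO ℚ => (y : AlgebraicClosure ℚ)) h1

/-- only one prime above `p` -/
theorem one_prime {P₀ : Ideal (OO ℚ)} (hP₀ : P₀.IsMaximal) (hpP₀ : (p : OO ℚ) ∈ P₀) (g : GF ℚ) :
    ∃ δ ∈ Dc P₀, δ⁻¹ * g ∈ fx (cyc ℚ p) := by
  have hGEN : S_GEN := Pool.Agent.W215.FM.main
  have hFROB : S_FROB := Pool.Agent.W571.FM.main
  have : NeZero p := ⟨hp.out.ne_zero⟩
  obtain ⟨ζ, hζ⟩ := HasEnoughRootsOfUnity.exists_primitiveRoot (AlgebraicClosure ℚ) p
  set χ : GF ℚ →* (ZMod p)ˣ := hζ.autToPow ℚ with hχ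
  have hspec : ∀ g : GF ℚ, ζ ^ ((χ g : (ZMod p)ˣ) : ZMod p).val = g ζ :=
    fun g => hζ.autToPow_spec ℚ g
  have hker : ∀ g : GF ℚ, g ∈ fx (cyc ℚ p) ↔ χ g = 1 := by
    intro g
    rw [mem_cyc]
    constructor
    · intro h
      have h1 := hspec g
      rw [h ζ hζ.pow_eq_one] at h1
      have h2 : ζ ^ ((χ g : (ZMod p)ˣ) : ZMod p).val = ζ ^ (1 : ZMod p).val := by
        rw [h1]
        have : (1 : ZMod p).val = 1 := by
          haveI : Fact (1 < p) := ⟨hp.out.one_lt⟩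
          exact ZMod.val_one p
        rw [this, pow_one]
      have h3 := hζ.pow_inj (ZMod.val_lt _) (ZMod.val_lt _) h2
      exact Units.ext (ZMod.val_injective p h3)
    · intro h z hz
      obtain ⟨i, -, rfl⟩ := hζ.eq_pow_of_pow_eq_one hz
      rw [map_pow, ← hspec g, h]
      have : ((1 : (ZMod p)ˣ) : ZMod p).val = 1 := by
        haveI : Fact (1 < p) := ⟨hp.out.one_lt⟩
        rw [Units.val_one]
        exact ZMod.val_one p
      rw [this, pow_one]
  let E := (ZMod p)ˣ ⧸ ((Dc P₀).map χ)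
  let f : GF ℚ →* E := (QuotientGroup.mk' ((Dc P₀).map χ)).comp χ
  have hf0 : ∀ g, χ g ∈ (Dc P₀).map χ → f g = 1 := fun g hg => (QuotientGroup.eq_one_iff (χ g)).2 hg
  have hopen : IsOpen (f.ker : Set (GF ℚ)) := by
    refine Subgroup.isOpen_mono (H₁ := MulAction.stabilizer (GF ℚ) ζ) ?_ (isOpen_stab ζ)
    intro g hg
    rw [MulAction.mem_stabilizer_iff] at hg
    have hg' : g ζ = ζ := hg
    apply hf0
    have h1 : χ g = 1 := by
      rw [← hker, mem_cyc]
      intro z hz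
      obtain ⟨i, -, rfl⟩ := hζ.eq_pow_of_pow_eq_one hz
      rw [map_pow, hg']
    rw [h1]
    exact one_mem _
  have hall := hGEN E f hopen (by
    intro P hP τ hτ
    by_cases hpP : (p : OO ℚ) ∈ P
    · obtain ⟨g, hg⟩ := (hFROB p hp.out).2 P₀ P hP₀ hP hpP₀ hpP
      have h1 := inertia_mem (hg τ hτ)
      apply hf0
      refine ⟨_, h1, ?_⟩
      rw [map_mul, map_mul, map_inv]
      rw [mul_comm ((χ g)⁻¹), inv_mul_cancel_right]
    · apply hf0
      rw [(hker τ).1 (inertia_fix hP hpP hτ)]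
      exact one_mem _) g
  obtain ⟨δ, hδ, hδg⟩ := (QuotientGroup.eq_one_iff (χ g)).1 hall
  refine ⟨δ, hδ, ?_⟩
  rw [hker, map_mul, map_inv, hδg, inv_mul_cancel]

instance cyc_normal : (fx (cyc ℚ p)).Normal := by
  constructor
  intro n hn g
  rw [mem_cyc] at hn ⊢
  intro z hz
  have h1 : (g⁻¹ z) ^ p = 1 := by rw [← map_pow, hz, map_one]
  rw [AlgEquiv.mul_apply, AlgEquiv.mul_apply, hn _ h1, ← AlgEquiv.mul_apply, mul_inv_cancel,
    AlgEquiv.one_apply]

/-- characters trivial on the decomposition group at `p` and unramified outside `p` -/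
theorem reg_key (hreg : Regular p) {P₀ : Ideal (OO ℚ)} (hP₀ : P₀.IsMaximal) (hpP₀ : (p : OO ℚ) ∈ P₀)
    (h : fx (cyc ℚ p) →* Multiplicative (ZMod p))
    (ho : IsOpen (h.ker : Set (fx (cyc ℚ p))))
    (hur : ∀ P : Ideal (OO ℚ), P.IsMaximal → (p : OO ℚ) ∉ P → ∀ τ : fx (cyc ℚ p),
      InInertia P (τ : GF ℚ) → h τ = 1)
    (hD : ∀ τ : fx (cyc ℚ p), (τ : GF ℚ) ∈ Dc P₀ → h τ = 1) : ∀ σ, h σ = 1 := by
  have hFROB : S_FROB := Pool.Agent.W571.FM.main
  refine hreg h ho fun P hP τ hτ => ?_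
  by_cases hpP : (p : OO ℚ) ∈ P
  · obtain ⟨g, hg⟩ := (hFROB p hp.out).2 P₀ P hP₀ hP hpP₀ hpP
    have h1 := hg τ hτ
    obtain ⟨δ, hδ, hδg⟩ := one_prime hP₀ hpP₀ g⁻¹
    -- `g⁻¹ = δ u`, `u = δ⁻¹ g⁻¹`
    set u : GF ℚ := δ⁻¹ * g⁻¹ with hu
    have h2 : InInertia P₀ (u * τ * u⁻¹) := by
      have h3 := inertia_conj h1 (inv_mem hδ)
      have e : δ⁻¹ * (g⁻¹ * (τ : GF ℚ) * g) * δ⁻¹⁻¹ = u * τ * u⁻¹ := by
        rw [hu]; group
      rwa [e] at h3
    let u' : (fx (cyc ℚ p)) := ⟨u, hδg⟩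
    have h4 : h (u' * τ * u'⁻¹) = 1 := hD _ (inertia_mem h2)
    rw [map_mul, map_mul, map_inv, mul_comm (h u'), mul_inv_cancel_right] at h4
    exact h4
  · exact hur P hP hpP τ hτ

/-- one tame prime -/
theorem tame_key (hp2 : p ≠ 2) (S : Finset ℕ) (hS : ∀ l ∈ S, l.Prime ∧ l ≠ p) (q : ℕ)
    (hq : ∀ l ∈ S, p ∣ l - 1 → l = q) (hpq : (p : ZMod q) ^ ((q - 1) / p) ≠ 1)
    {P₀ : Ideal (OO ℚ)} (hP₀ : P₀.IsMaximal) (hpP₀ : (p : OO ℚ) ∈ P₀)
    (f : GF ℚ →* Multiplicative (ZMod p)) (ho : IsOpen (f.ker : Set (GF ℚ)))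
    (hur : ∀ g ∈ UrSet p S, f g = 1) (hD : ∀ τ ∈ Dc P₀, f τ = 1) : ∀ σ, f σ = 1 := by
  classical
  have hex : ∀ j : ℕ, ∃ π : (ZMod j)ˣ →* Multiplicative (ZMod p), j.Prime → p ∣ j - 1 →
      (∀ x, π x = 1 ↔ x ^ ((j - 1) / p) = 1) ∧ ∃ x, π x ≠ 1 := by
    intro j
    by_cases h : j.Prime ∧ p ∣ j - 1
    · obtain ⟨π, hπ⟩ := exists_quot hp.out h.1 h.2
      exact ⟨π, fun _ _ => hπ⟩
    · exact ⟨1, fun h1 h2 => absurd ⟨h1, h2⟩ h⟩
  choose χ hχ using hex
  obtain ⟨d⟩ := Pool.Agent.TH831.OE.exists_dat hp2 S hS χ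
    (fun l hl hpl => (hχ l (hS l hl).1 hpl).2) P₀ hP₀ hpP₀
  have hspan := d.span f ho hur
  have hγ : f d.γ = 1 := hD _ (inertia_mem d.hγ)
  by_cases hqS : q ∈ S ∧ p ∣ q - 1
  · have hfil : S.filter (fun l => p ∣ l - 1) = {q} := by
      ext l
      rw [Finset.mem_filter, Finset.mem_singleton]
      constructor
      · rintro ⟨h1, h2⟩; exact hq l h1 h2
      · rintro rfl; exact hqS
    have hqp := (hS q hqS.1).1
    have hqne := (hS q hqS.1).2
    have hform : ∀ g, Multiplicative.toAdd (f g) = Multiplicative.toAdd (d.ψ q g) *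
        Multiplicative.toAdd (f (d.τ q)) := by
      intro g
      rw [hspan g, hγ, toAdd_one, mul_zero, zero_add, hfil, Finset.sum_singleton]
    have hFr : d.σ p ∈ Dc P₀ := by
      have h1 := d.hσ p hp.out
      rw [d.hPp] at h1
      exact frob_mem hP₀.isPrime hp.out.pos h1
    have hcop : Nat.Coprime p q := (Nat.coprime_primes hp.out hqp).2 hqne.symm
    let x : (ZMod q)ˣ := ZMod.unitOfCoprime p hcop
    have hx : (x : ZMod q) = (p : ZMod q) := ZMod.coe_unitOfCoprime p hcop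
    have h1 : d.ψ q (d.σ p) = χ q x := d.hlam q hqS.1 hqS.2 p hp.out hqne.symm x hx
    have h2 : χ q x ≠ 1 := by
      intro h
      have h3 := ((hχ q hqp hqS.2).1 x).1 h
      apply hpq
      have h4 := congrArg (fun y : (ZMod q)ˣ => (y : ZMod q)) h3
      simp only [Units.val_pow_eq_pow_val, Units.val_one, hx] at h4
      exact h4
    have h3 := hform (d.σ p)
    rw [hD _ hFr, toAdd_one, h1] at h3
    have h4 : Multiplicative.toAdd (χ q x) ≠ 0 := by
      intro h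
      apply h2
      exact Multiplicative.toAdd.injective (h.trans toAdd_one.symm)
    have h5 := (mul_eq_zero.1 h3.symm).resolve_left h4
    intro g
    apply Multiplicative.toAdd.injective
    rw [hform g, h5, mul_zero, toAdd_one]
  · have hfil : S.filter (fun l => p ∣ l - 1) = ∅ := by
      rw [Finset.filter_eq_empty_iff]
      intro l hl hpl
      have := hq l hl hpl
      subst this
      exact hqS ⟨hl, hpl⟩
    intro g
    apply Multiplicative.toAdd.injective
    rw [hspan g, hγ, toAdd_one, mul_zero, zero_add, hfil, Finset.sum_empty]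

end

end Pool.Agent.W5h93.FMP
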