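import Pool.Agent.R384.Z.Pot

/-! Density of a subgroup in the images of representations which are residually unipotent on a
subgroup. -/

set_option autoImplicit false
set_option linter.all false

namespace Pool.Agent.W5h93.FMP

open Pool.Agent.Z384 IsLocalRing Matrix

/-- a proper subgroup of a finite `p`-group is killed by a character of order `p` -/
theorem exists_char {p : ℕ} [hp : Fact p.Prime] {P : Type*} [Group P] [Finite P] {a : ℕ}
    (hP : Nat.card P = p ^ a) {Q : Subgroup P} (hQ : Q ≠ ⊤) :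
    ∃ f : P →* Multiplicative (ZMod p), (∀ x ∈ Q, f x = 1) ∧ ∃ x, f x ≠ 1 := by
  obtain ⟨m, hm, hQm⟩ := (Nat.dvd_prime_pow hp.out).1 (hP ▸ Subgroup.card_subgroup_dvd_card Q)
  have hma : m ≠ a := by
    rintro rfl
    exact hQ (Subgroup.eq_top_of_card_eq Q (by rw [hQm, hP]))
  obtain ⟨b, rfl⟩ : ∃ b, a = b + 1 := ⟨a - 1, by omega⟩
  obtain ⟨K, hK, hQK⟩ := Sylow.exists_subgroup_card_pow_prime_le (G := P) p (n := m) (m := b)
    (by rw [hP]; exact pow_dvd_pow _ (by omega)) Q hQm (by omega)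
  have hidx : K.index = p := by
    have h1 := K.card_mul_index
    rw [hK, hP, pow_succ] at h1
    exact Nat.eq_of_mul_eq_mul_left (pow_pos hp.out.pos b) h1
  have hn : K.Normal := by
    apply Subgroup.normal_of_index_eq_minFac_card
    rw [hidx, hP, Nat.Prime.pow_minFac hp.out (by omega)]
  have hc : Nat.card (P ⧸ K) = p := hidx
  have hc' : Nat.card (Multiplicative (ZMod p)) = p := by
    rw [Nat.card_congr Multiplicative.toAdd, Nat.card_zmod]
  let e : P ⧸ K ≃* Multiplicative (ZMod p) := mulEquivOfPrimeCardEq hc hc'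
  refine ⟨e.toMonoidHom.comp (QuotientGroup.mk' K), fun x hx => ?_, ?_⟩
  · show e (QuotientGroup.mk' K x) = 1
    have : QuotientGroup.mk' K x = 1 := (QuotientGroup.eq_one_iff x).2 (hQK hx)
    rw [this, map_one]
  · by_contra hcon
    push Not at hcon
    have hKt : K = ⊤ := by
      refine eq_top_iff.2 fun x _ => ?_
      have h1 : e (QuotientGroup.mk' K x) = 1 := hcon x
      have h2 : QuotientGroup.mk' K x = 1 := e.injective (h1.trans (map_one e).symm)
      exact (QuotientGroup.eq_one_iff x).1 h2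
    rw [hKt, Subgroup.index_top] at hidx
    exact hp.out.one_lt.ne hidx

section mat

variable {A : Type*} [CommRing A] [IsLocalRing A] {n : ℕ} {p : ℕ}

theorem inI_pow {I : Ideal A} {Y : Matrix (Fin n) (Fin n) A} (hY : InI I (Y - 1)) (i : ℕ) :
    InI I (Y ^ i - 1) := by
  rw [← mul_geom_sum]
  intro a b
  rw [Matrix.mul_apply]
  exact Ideal.sum_mem _ fun k _ => Ideal.mul_mem_right _ _ (hY a k)

theorem inI_sum {κ : Type*} {I : Ideal A} (s : Finset κ) (Y : κ → Matrix (Fin n) (Fin n) A)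
    (h : ∀ i ∈ s, InI I (Y i)) : InI I (∑ i ∈ s, Y i) := by
  intro a b
  rw [Matrix.sum_apply]
  exact Ideal.sum_mem _ fun i hi => h i hi a b

theorem lift_step (hpA : (p : A) ∈ maximalIdeal A) {J : Ideal A} (hJ : J ≤ maximalIdeal A)
    {Y : Matrix (Fin n) (Fin n) A} (hY : InI J (Y - 1)) : InI (J * maximalIdeal A) (Y ^ p - 1) := by
  rw [← mul_geom_sum]
  refine hY.mul ?_
  have h1 : ∑ i ∈ Finset.range p, Y ^ i = ∑ i ∈ Finset.range p, (Y ^ i - 1) +
      (p : A) • (1 : Matrix (Fin n) (Fin n) A) := by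
    rw [Finset.sum_sub_distrib, Finset.sum_const, Finset.card_range, Nat.cast_smul_eq_nsmul]
    abel
  rw [h1]
  refine InI.add (inI_sum _ _ fun i _ => inI_pow (hY.mono hJ) i) fun a b => ?_
  rw [Matrix.smul_apply, smul_eq_mul]
  exact Ideal.mul_mem_right _ _ hpA

theorem lift2p (hpA : (p : A) ∈ maximalIdeal A) {X : Matrix (Fin n) (Fin n) A}
    (hX : InI (maximalIdeal A) (X - 1)) (m : ℕ) : InI (maximalIdeal A ^ (m + 1)) (X ^ p ^ m - 1) := by
  induction m with
  | zero => simpa using hX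
  | succ m ih =>
    rw [pow_succ p m, pow_mul, pow_succ (maximalIdeal A) (m + 1)]
    exact lift_step hpA (Ideal.pow_le_self (by omega)) ih

theorem lift1p [hp : Fact p.Prime] (hpA : (p : A) ∈ maximalIdeal A) {X : Matrix (Fin n) (Fin n) A} {N : ℕ}
    (hX : InI (maximalIdeal A) ((X - 1) ^ N)) : InI (maximalIdeal A) (X ^ p ^ N - 1) := by
  set f : Matrix (Fin n) (Fin n) A →+* Matrix (Fin n) (Fin n) (ResidueField A) :=
    (residue A).mapMatrix with hf
  have hz : ∀ Z : Matrix (Fin n) (Fin n) A, InI (maximalIdeal A) Z ↔ f Z = 0 := by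
    intro Z
    constructor
    · intro h
      ext i j
      exact (residue_eq_zero_iff _).2 (h i j)
    · intro h i j
      exact (residue_eq_zero_iff _).1 (congrFun (congrFun h i) j)
  have hc : CharP (ResidueField A) p := by
    have h0 : ((p : ℕ) : ResidueField A) = 0 := by
      have : residue A (p : A) = 0 := (residue_eq_zero_iff _).2 hpA
      rwa [map_natCast] at this
    obtain ⟨q, hq⟩ := CharP.exists (ResidueField A)
    have h1 := (CharP.cast_eq_zero_iff (ResidueField A) q p).1 h0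
    rcases (Nat.dvd_prime hp.out).1 h1 with h2 | h2
    · exfalso
      subst h2
      have := (CharP.cast_eq_zero_iff (ResidueField A) 1 1).2 dvd_rfl
      rw [Nat.cast_one] at this
      exact one_ne_zero this
    · exact h2 ▸ hq
  rw [hz] at hX ⊢
  have hc2 : CharP (Matrix (Fin n) (Fin n) (ResidueField A)) p ∨ n = 0 := by
    rcases Nat.eq_zero_or_pos n with h | h
    · exact Or.inr h
    · have : Nonempty (Fin n) := ⟨⟨0, h⟩⟩
      exact Or.inl inferInstance
  rcases hc2 with hc2 | hn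
  · rw [map_sub, map_pow, map_one] at *
    have h3 : (f X - 1) ^ p ^ N = f X ^ p ^ N - 1 := by
      have := sub_pow_char_pow_of_commute p N (Commute.one_right (f X))
      rwa [one_pow] at this
    rw [← h3]
    obtain ⟨k, hk⟩ : ∃ k, p ^ N = N + k := ⟨p ^ N - N, by
      have := Nat.lt_pow_self (n := N) hp.out.one_lt
      omega⟩
    rw [hk, pow_add]
    have h4 : (f X - 1) ^ N = 0 := by
      have := hX
      rwa [map_sub, map_one] at this
    rw [h4, zero_mul]
  · subst hn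
    exact Subsingleton.elim _ _

end mat

section rep

variable {A : Type*} [CommRing A] [IsLocalRing A] [IsNoetherianRing A] {n : ℕ} {p : ℕ} [hp : Fact p.Prime]
variable {G : Type*} [Group G]

theorem cong_idx (hpA : (p : A) ∈ maximalIdeal A) (hfin : Finite (ResidueField A))
    (ρ : G →* GL (Fin n) A)
    (hres : ∀ σ, ∃ N : ℕ, InI (maximalIdeal A) (((ρ σ : Matrix (Fin n) (Fin n) A) - 1) ^ N)) (m : ℕ) :
    ∃ b : ℕ, (cong ρ m).index = p ^ b := by
  have hf1 : Finite (A ⧸ maximalIdeal A) := hfin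
  have hf2 : Finite (A ⧸ maximalIdeal A ^ m) :=
    Ideal.finite_quotient_pow (IsNoetherian.noetherian (maximalIdeal A)) m
  have hf3 : Finite (Matrix (Fin n) (Fin n) (A ⧸ maximalIdeal A ^ m)) := inferInstance
  have hf4 : Finite (GL (Fin n) (A ⧸ maximalIdeal A ^ m)) := Finite.of_injective
    (fun u : GL (Fin n) (A ⧸ maximalIdeal A ^ m) =>
      (u : Matrix (Fin n) (Fin n) (A ⧸ maximalIdeal A ^ m))) Units.val_injective
  have hf5 : (cong ρ m).FiniteIndex := by
    unfold cong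
    infer_instance
  have hn := cong_normal ρ m
  have hpg : IsPGroup p (G ⧸ cong ρ m) := by
    intro x
    obtain ⟨g, rfl⟩ := QuotientGroup.mk_surjective x
    obtain ⟨N, hN⟩ := hres g
    refine ⟨N + m, ?_⟩
    rw [← QuotientGroup.mk_pow]
    refine (QuotientGroup.eq_one_iff _).2 (mem_cong.2 ?_)
    have h3 := lift2p hpA (lift1p hpA hN) m
    have e : (ρ (g ^ p ^ (N + m)) : Matrix (Fin n) (Fin n) A) =
        ((ρ g : Matrix (Fin n) (Fin n) A) ^ p ^ N) ^ p ^ m := by
      rw [map_pow, Units.val_pow_eq_pow_val, ← pow_mul, ← pow_add]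
    rw [e]
    exact h3.mono (Ideal.pow_le_pow_right (by omega))
  obtain ⟨b, hb⟩ := IsPGroup.iff_card.1 hpg
  exact ⟨b, hb⟩

/-- **Density.** -/
theorem dense [TopologicalSpace G] [IsTopologicalGroup G] [TopologicalSpace A]
    (hA : IsAdic (maximalIdeal A)) (hfin : Finite (ResidueField A)) (hpA : (p : A) ∈ maximalIdeal A)
    {ρ : G →* GL (Fin n) A} (hρ : ∀ i j, Continuous fun σ => (ρ σ : Matrix (Fin n) (Fin n) A) i j)
    (H D : Subgroup G) (hDH : ∀ g, ∃ δ ∈ D, δ⁻¹ * g ∈ H)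
    (hres : ∀ σ ∈ H, ∃ N : ℕ, InI (maximalIdeal A) (((ρ σ : Matrix (Fin n) (Fin n) A) - 1) ^ N))
    (hkey : ∀ h : H →* Multiplicative (ZMod p), IsOpen (h.ker : Set H) → (∀ σ : H, ρ σ = 1 → h σ = 1) →
      (∀ σ : H, (σ : G) ∈ D → h σ = 1) → ∀ σ, h σ = 1)
    (m : ℕ) (g : G) : ∃ δ ∈ D, δ⁻¹ * g ∈ cong ρ m := by
  set ρH : H →* GL (Fin n) A := ρ.comp H.subtype with hρH
  have hρH' : ∀ i j, Continuous fun σ => (ρH σ : Matrix (Fin n) (Fin n) A) i j := fun i j =>
    (hρ i j).comp continuous_subtype_val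
  obtain ⟨b, hb⟩ := cong_idx hpA hfin ρH (fun σ => hres σ σ.2) m
  have hUn : (cong ρH m).Normal := cong_normal ρH m
  have hUo : IsOpen (cong ρH m : Set H) := cong_open hA hρH' m
  have hUf : (cong ρH m).FiniteIndex := ⟨by rw [hb]; exact (pow_pos hp.out.pos b).ne'⟩
  have hfinq : Finite (H ⧸ cong ρH m) := inferInstance
  have main : ∀ h : H, ∃ δ : H, (δ : G) ∈ D ∧ δ⁻¹ * h ∈ cong ρH m := by
    intro h
    set Q : Subgroup (H ⧸ cong ρH m) := (D.subgroupOf H).map (QuotientGroup.mk' _) with hQ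
    by_cases hQt : Q = ⊤
    · have h1 : (QuotientGroup.mk' (cong ρH m) h) ∈ Q := by rw [hQt]; trivial
      obtain ⟨δ, hδ, hδg⟩ := h1
      exact ⟨δ, Subgroup.mem_subgroupOf.1 hδ, QuotientGroup.eq.1 hδg⟩
    · exfalso
      obtain ⟨f, hf, x, hx⟩ := exists_char (P := H ⧸ cong ρH m) (a := b) hb hQt
      obtain ⟨σ, rfl⟩ := QuotientGroup.mk'_surjective _ x
      apply hx
      refine hkey (f.comp (QuotientGroup.mk' _)) ?_ ?_ ?_ σ
      · refine Subgroup.isOpen_mono ?_ hUo
        intro τ hτ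
        have : QuotientGroup.mk' (cong ρH m) τ = 1 := (QuotientGroup.eq_one_iff τ).2 hτ
        show f (QuotientGroup.mk' (cong ρH m) τ) = 1
        rw [this, map_one]
      · intro τ hτ
        have hτ' : τ ∈ cong ρH m := by
          show GeneralLinearGroup.map (n := Fin n) (Ideal.Quotient.mk (maximalIdeal A ^ m)) (ρ τ) = 1
          rw [hτ, map_one]
        have : QuotientGroup.mk' (cong ρH m) τ = 1 := (QuotientGroup.eq_one_iff τ).2 hτ'
        show f (QuotientGroup.mk' (cong ρH m) τ) = 1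
        rw [this, map_one]
      · intro τ hτ
        exact hf _ ⟨τ, Subgroup.mem_subgroupOf.2 hτ, rfl⟩
  obtain ⟨δ₀, hδ₀, h₀⟩ := hDH g
  obtain ⟨δ, hδ, hδh⟩ := main ⟨δ₀⁻¹ * g, h₀⟩
  refine ⟨δ₀ * δ, mul_mem hδ₀ hδ, ?_⟩
  have e : (δ₀ * δ)⁻¹ * g = ((δ⁻¹ * ⟨δ₀⁻¹ * g, h₀⟩ : H) : G) := by
    simp only [Subgroup.coe_mul, Subgroup.coe_inv, _root_.mul_inv_rev, mul_assoc]
  rw [e]
  exact hδh

end rep

end Pool.Agent.W5h93.FMP
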